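import Mathlib
import Pool.Agent.Q92.BX.Main

/-!
# MP_d4a354_an, Q1: a continuum of beta-expansions with prescribed digit frequencies

The equivalence holds for every base `β > 1` and all prescribed upper and lower frequencies.
-/

open Set Filter MeasureTheory

namespace Pool.Agent.Results.MP_d4a354_an.Continuum

/-- `ε` (with `ε i` the digit number `i + 1`) is a `β`-expansion of `x` over the alphabet
`{0, …, ⌊β⌋}`. -/
def IsExpansion (β x : ℝ) (ε : ℕ → Fin (⌊β⌋₊ + 1)) : Prop :=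
  HasSum (fun i : ℕ => ((ε i : ℕ) : ℝ) / β ^ (i + 1)) x

/-- The number of occurrences of the digit `k` among the first `n` digits of `ε`. -/
noncomputable def count {β : ℝ} (k : Fin (⌊β⌋₊ + 1)) (ε : ℕ → Fin (⌊β⌋₊ + 1)) (n : ℕ) : ℕ :=
  ((Finset.range n).filter fun i => ε i = k).card

/-- Upper frequency of the digit `k`. -/
noncomputable def upperFreq {β : ℝ} (k : Fin (⌊β⌋₊ + 1)) (ε : ℕ → Fin (⌊β⌋₊ + 1)) : ℝ :=
  limsup (fun n : ℕ => (count k ε n : ℝ) / n) atTop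

/-- Lower frequency of the digit `k`. -/
noncomputable def lowerFreq {β : ℝ} (k : Fin (⌊β⌋₊ + 1)) (ε : ℕ → Fin (⌊β⌋₊ + 1)) : ℝ :=
  liminf (fun n : ℕ => (count k ε n : ℝ) / n) atTop

/-- The set `E_β(x; p, q)` of `β`-expansions of `x` with upper frequencies `p` and lower
frequencies `q`. -/
def E (β : ℝ) (p q : Fin (⌊β⌋₊ + 1) → ℝ) (x : ℝ) : Set (ℕ → Fin (⌊β⌋₊ + 1)) :=
  {ε | IsExpansion β x ε ∧ ∀ k, upperFreq k ε = p k ∧ lowerFreq k ε = q k}

/-- For every real `β > 1` (in particular every non-integer one) and all `p, q ∈ [0, 1]^{⌊β⌋ + 1}`: almost every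
`x ∈ [0, ⌊β⌋ / (β - 1)]` has an expansion of frequency `(p, q)` if and only if almost every such
`x` has a continuum of them. -/
theorem result (β : ℝ) (hβ : 1 < β) (p q : Fin (⌊β⌋₊ + 1) → ℝ)
    (hp : ∀ k, p k ∈ Icc (0 : ℝ) 1) (hq : ∀ k, q k ∈ Icc (0 : ℝ) 1) :
    (∀ᵐ x ∂(volume.restrict (Icc (0 : ℝ) ((⌊β⌋₊ : ℝ) / (β - 1)))), (E β p q x).Nonempty) ↔
      ∀ᵐ x ∂(volume.restrict (Icc (0 : ℝ) ((⌊β⌋₊ : ℝ) / (β - 1)))),
        Cardinal.mk (E β p q x) = Cardinal.continuum := by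
  have hm1 : 1 ≤ ⌊β⌋₊ := Nat.one_le_floor_iff β |>.2 hβ.le
  exact Q92.BX.equivalence hβ (Nat.lt_floor_add_one β) hm1 hp hq

end Pool.Agent.Results.MP_d4a354_an.Continuum
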